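import Pool.Agent.TwoWell.GFinal

set_option autoImplicit false

open MeasureTheory Matrix GClosure

/-!
# The `G`-closure of two phases in the plane is not always the lamination closure

Definitions (in `Pool/Agent/TwoWell/GDefs.lean`): `Ix`, `Mt`, `Tens`, `cell`, `IsPot`, `grad`,
`IsMicro`, `tens`, `IsField`, `IsCurrent`, `IsEff`, `Gf`, `IsLayer`, `IsLam`, `GLf`.
-/

namespace Pool.Agent.Results.MP_393ee6_an.ClosuresDiffer

/-- There are a volume fraction `f ∈ [0, 1]` and two self-adjoint positive definite phases `L₁, L₂`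
on real `2 × 12` matrices, such that some effective tensor in the `G`-closure `G_f(L₁, L₂)` is not
in the lamination closure `G^L_f(L₁, L₂)`; in particular the assertion that
`G_f(L₁, L₂) = G^L_f(L₁, L₂)` for all `n ≥ 1`, all `f ∈ [0, 1]` and all pairs of phases is false. -/
theorem result :
    (∃ (f : ℝ) (L₁ L₂ : Tens 12), 0 ≤ f ∧ f ≤ 1 ∧ L₁.PosDef ∧ L₂.PosDef ∧
      ∃ Ls : Tens 12, Ls ∈ Gf f L₁ L₂ ∧ Ls ∉ GLf f L₁ L₂) ∧
    ¬ (∀ (n : ℕ), 1 ≤ n → ∀ (f : ℝ), 0 ≤ f → f ≤ 1 → ∀ (L₁ L₂ : Tens n),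
      L₁.PosDef → L₂.PosDef → Gf f L₁ L₂ = GLf f L₁ L₂) := by
  obtain ⟨f, L₁, L₂, h0, h1, p1, p2, Ls, h2, h3⟩ := two_phase_gap
  refine ⟨⟨f, L₁, L₂, h0, h1, p1, p2, Ls, h2, h3⟩, fun H => ?_⟩
  exact h3 (H 12 (by norm_num) f h0 h1 L₁ L₂ p1 p2 ▸ h2)

end Pool.Agent.Results.MP_393ee6_an.ClosuresDiffer
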